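import Mathlib
import Pool.Agent.H31Jump.Example

set_option autoImplicit false

/-!
# `2/9` is a jump for the 3-graphs of cyclic triangles of digraphs, with the exact constant
-/

namespace Pool.Agent.Results.MP_0aa159_co.JumpCyclicTriangles

open Pool.Agent.H31Jump

/-- `H` consists of the vertex sets of the directed 3-cycles of `D`. -/
def CyclicTriangles {V : Type*} [DecidableEq V] (H : Finset (Finset V)) (D : V → V → Prop) :
    Prop :=
  ∀ e, e ∈ H ↔ ∃ a b c, a ≠ b ∧ b ≠ c ∧ a ≠ c ∧ e = {a, b, c} ∧ D a b ∧ D b c ∧ D c a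

/-- The frozen statement `S07095` for the 3-graphs `H` of all directed 3-cycles of a digraph `D`
(2-cycles allowed): if `n` is large and `H` has at least `(2/9 + ε) C(n,3)` edges, then some `t`
vertices span at least `J C(t,3)` edges, where `J = (189 + 15√5)/961 = 0.2315...`; and `J` cannot
be replaced by a larger number. -/
theorem result :
    (∀ ε : ℝ, 0 < ε → ∀ t : ℕ, 3 ≤ t → ∃ n₀ : ℕ, ∀ n : ℕ, n₀ ≤ n →
      ∀ (H : Finset (Finset (Fin n))) (D : Fin n → Fin n → Prop), CyclicTriangles H D →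
        ((2 : ℝ) / 9 + ε) * ((n.choose 3 : ℕ) : ℝ) ≤ (H.card : ℝ) →
        ∃ S : Finset (Fin n), S.card = t ∧
          (189 + 15 * √5) / 961 * ((t.choose 3 : ℕ) : ℝ) ≤
            ((H.filter (fun e => e ⊆ S)).card : ℝ)) ∧
    (∀ γ : ℝ, (189 + 15 * √5) / 961 < γ → ∃ t : ℕ, 3 ≤ t ∧ ∀ n₀ : ℕ, ∃ n : ℕ, n₀ ≤ n ∧
      ∃ (H : Finset (Finset (Fin n))) (D : Fin n → Fin n → Prop), CyclicTriangles H D ∧
        (23157 : ℝ) / 100000 * ((n.choose 3 : ℕ) : ℝ) ≤ (H.card : ℝ) ∧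
        ∀ S : Finset (Fin n), S.card = t →
          ((H.filter (fun e => e ⊆ S)).card : ℝ) < γ * ((t.choose 3 : ℕ) : ℝ)) := by
  refine ⟨?_, ?_⟩
  · intro ε hε t ht
    obtain ⟨n₀, h0⟩ := main_exact hε ht
    exact ⟨n₀, fun n hn H D hD hH => h0 n hn H D (desc_of_rep hD) hH⟩
  · intro γ hγ
    exact sharp hγ

end Pool.Agent.Results.MP_0aa159_co.JumpCyclicTriangles
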