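import Mathlib
import Pool.Agent.TwoGr.Sharp

set_option autoImplicit false

/-!
# `2/9` is a jump for 3-graphs without four vertices spanning exactly one edge
-/

namespace Pool.Agent.Results.MP_0aa159_co.JumpNoSingleEdge

/-- `H` is a 3-graph in which no four vertices span exactly one edge. -/
def NoSingle {V : Type*} [DecidableEq V] (H : Finset (Finset V)) : Prop :=
  (∀ e ∈ H, e.card = 3) ∧ ∀ Q : Finset V, Q.card = 4 → (H.filter (fun e => e ⊆ Q)).card ≠ 1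

/-- The frozen statement `S07095` for 3-graphs `H` in which no four vertices span exactly one
edge: if `n` is large and `H` has at least `(2/9 + ε) C(n,3)` edges, then some `t` vertices span at
least `6/25 C(t,3)` edges; and `6/25` cannot be replaced by a larger number, even if every four
vertices span an even number of edges. -/
theorem result :
    (∀ ε : ℝ, 0 < ε → ∀ t : ℕ, 3 ≤ t → ∃ n₀ : ℕ, ∀ n : ℕ, n₀ ≤ n →
      ∀ H : Finset (Finset (Fin n)), NoSingle H →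
        ((2 : ℝ) / 9 + ε) * ((n.choose 3 : ℕ) : ℝ) ≤ (H.card : ℝ) →
        ∃ S : Finset (Fin n), S.card = t ∧
          (6 : ℝ) / 25 * ((t.choose 3 : ℕ) : ℝ) ≤ ((H.filter (fun e => e ⊆ S)).card : ℝ)) ∧
    (∀ γ : ℝ, (6 : ℝ) / 25 < γ → ∃ t : ℕ, 3 ≤ t ∧ ∀ n₀ : ℕ, ∃ n : ℕ, n₀ ≤ n ∧
      ∃ H : Finset (Finset (Fin n)), NoSingle H ∧
        (∀ Q : Finset (Fin n), Q.card = 4 → Even (H.filter (fun e => e ⊆ Q)).card) ∧
        (6 : ℝ) / 25 * ((n.choose 3 : ℕ) : ℝ) ≤ (H.card : ℝ) ∧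
        ∀ S : Finset (Fin n), S.card = t →
          ((H.filter (fun e => e ⊆ S)).card : ℝ) < γ * ((t.choose 3 : ℕ) : ℝ)) := by
  have e : (6 : ℝ) / 25 = 24 / 100 := by norm_num
  rw [e]
  refine ⟨?_, ?_⟩
  · intro ε hε t ht
    obtain ⟨n₀, h0⟩ := TwoGr.main2 hε ht
    exact ⟨n₀, fun n hn H hH hc => h0 n hn H (TwoGr.rel H) (TwoGr.rel_desc hH.1)
      (TwoGr.rel_noOne hH.1 hH.2) hc⟩
  · intro γ hγ
    obtain ⟨t, ht, h⟩ := TwoGr.sharp5 hγ
    refine ⟨t, ht, fun n₀ => ?_⟩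
    obtain ⟨n, hn, H, h1, h2, h3, h4⟩ := h n₀
    refine ⟨n, hn, H, ⟨h1, fun Q hQ h5 => ?_⟩, h2, h3, h4⟩
    have h6 := h2 Q hQ
    rw [h5] at h6
    exact absurd h6 (by decide)

end Pool.Agent.Results.MP_0aa159_co.JumpNoSingleEdge
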